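import Pool.Agent.TH6.FB.Cx

set_option autoImplicit false

/-! Let `φ : E → G` be a surjective homomorphism of groups. Finite complexes of based free
`ℤE`-modules whose boundary maps are controlled over `G` by a symmetric matrix of `ℓ²`-operator norm
less than `3 / √2` are sums of complexes induced from preimages of virtually cyclic subgroups of
`G`, and their torsion, if they are contractible, comes from such preimages. -/

namespace Pool.Agent.Results.MP_59dd5b_al.ThinComplexes

open TH57.Thr TH6.LF TH6.PF TH6.CX TH6.CR TH6.FB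

theorem result (E G : Type) [Group E] [Group G] (φ : E →* G) (hφ : Function.Surjective φ)
    (ι : Type) [Fintype ι] [DecidableEq ι] (deg : ι → ℤ)
    (d : Matrix ι ι (MonoidAlgebra ℤ E)) (hd : IsBd deg d)
    (A : Matrix ι ι (MonoidAlgebra ℤ G))
    (hsym : ∀ i j g, (A i j).coeff g ≠ 0 → (A j i).coeff g⁻¹ ≠ 0)
    (c : ℝ) (hc0 : 0 < c) (hc : c ^ 2 < 9 / 2) (hA : NormLE A c) :
    (Controlled φ A d → ∃ (ρ : ι → ι) (u : ι → E) (C : ι → Subgroup E),
      (∀ b, VCImage φ (C b)) ∧
      TH6.CR.InBlocks ρ C ((dmU ℤ u).val * d * (dmU ℤ u)⁻¹.val)) ∧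
    ((Controlled φ A d ∨ ∃ t, IsCt deg d t ∧ t * t = 0 ∧ Controlled φ A t) →
      ∀ s : Matrix ι ι (MonoidAlgebra ℤ E), IsCt deg d s →
      Nonempty ({i // Odd (deg i)} ≃ {i // Even (deg i)}) ∧
      ∀ e : {i // Odd (deg i)} ≃ {i // Even (deg i)},
        ∃ T : (Matrix {i // Odd (deg i)} {i // Odd (deg i)} (MonoidAlgebra ℤ E))ˣ,
          T.val = torMatrix deg d s e ∧ T ∈ FGen ℤ E {i // Odd (deg i)} (VCImage φ)) :=
  ⟨fun h => controlled_structure φ hφ A hsym c hc0 hc hA d h,
    fun h s hs => ⟨card_eq deg d s hd hs,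
      fun e => F_main φ hφ deg d hd A hsym c hc0 hc hA h s hs e⟩⟩

end Pool.Agent.Results.MP_59dd5b_al.ThinComplexes
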